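import Mathlib
import Pool.Agent.Y395.EP.Defs
import Pool.Agent.Y395.EP.Final

/-!
# A planar minor of a condensed wall whose expansions fail the edge-Erdős–Pósa property

`H` has 23 vertices. It consists of a graph `J` on 21 vertices (a chain of six diamonds together with
two further vertices `A`, `B`, each joined to one side of the chain) and of a triangle glued to `J` at
`A`. In the host graph every edge of `J` except one edge `xy` is replaced by many parallel edges
(subdivided), and a large condensed wall, with `a` and `b` identified with `A`, is attached with its
ends `z 0`, `z r` at `x` and `y`. Deleting few edges leaves a minor `H`, while any two subgraphs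
with a minor `H` share an edge.
-/

set_option autoImplicit false

namespace Pool.Agent.Results.MP_2eb2cf_co.CondensedWallMinor

open Pool.Agent.Y395.EP

/-- Some connected planar graph is a minor of a condensed wall, yet its expansions do not have the
edge-Erdős–Pósa property. -/
theorem result : ∃ (n : ℕ) (H : SimpleGraph (Fin n)), H.Connected ∧ Planar H ∧
    (∃ r : ℕ, 1 ≤ r ∧ IsMinor H (condensedWall r)) ∧ ¬ EdgeErdosPosa H :=
  ⟨23, H, H_connected, planar_H, ⟨16, by norm_num, H_minor_wall⟩, not_EdgeErdosPosa_H⟩

end Pool.Agent.Results.MP_2eb2cf_co.CondensedWallMinor
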